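import Pool.Agent.TC3.Dsty

namespace Pool.Agent.Results.MP_36bb18_co.DensityHalf

open Pool.Agent.TC3

/-- The density theorem: let `C` be a set which contains, for every `m > 1`, one of the powers
`m, m^2, ..., m^Y`, and let `a₀ > 1` be a base for which the set of all `z` with `a₀ ^ z ∈ C` has
upper multiplicative density at least one half, along the boxes of all products
`∏_{i ≤ X} p_i ^ e_i`, `0 ≤ e_i ≤ X`, of the first `X + 1` primes. Then `C` contains `a`, `b`,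
`a^b`, `a^(b^b)` for some `b > 1` and some power `a` of `a₀`. -/
theorem result (C : Set ℕ) (Y a₀ : ℕ) (ha : 1 < a₀)
    (hC : ∀ m : ℕ, 1 < m → ∃ y, 0 < y ∧ y ≤ Y ∧ m ^ y ∈ C)
    (hd : ∀ ε : ℝ, 0 < ε → ∃ᶠ X : ℕ in Filter.atTop, (1 / 2 - ε) * ((X : ℝ) + 1) ^ (X + 1) ≤
      (Nat.card {e : Fin (X + 1) → Fin (X + 1) //
        a₀ ^ (∏ i : Fin (X + 1), Nat.nth Nat.Prime (i : ℕ) ^ (e i : ℕ)) ∈ C} : ℝ)) :
    ∃ a b : ℕ, (∃ z, 0 < z ∧ a = a₀ ^ z) ∧ 1 < b ∧ a ∈ C ∧ b ∈ C ∧ a ^ b ∈ C ∧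
      a ^ (b ^ b) ∈ C := by
  have _ := ha
  obtain ⟨z, b, hz, hb, h1, h2, h3, h4⟩ := density C Y a₀ hC hd
  exact ⟨a₀ ^ z, b, ⟨z, hz, rfl⟩, hb, h2, h1, h3, h4⟩

end Pool.Agent.Results.MP_36bb18_co.DensityHalf
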