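import Pool.Agent.PPR.Final

namespace Pool.Agent.Results.MP_36bb18_co.PolynomialPairs

/-- For every finite colouring `c` of the natural numbers and every finite set `S` of polynomials
with natural coefficients there are `m, b > 1` such that for all `P, Q ∈ S` some power `a > 1` of
`m` has `c (a ^ (b ^ P(b))) = c (a ^ (b ^ Q(b))) = c b`. For `S = {0, 1, X}`: each of the three
pairs from `a`, `a ^ b`, `a ^ (b ^ b)` has the colour of `b`, for one `b` and a suitable `a`. -/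
theorem result (r : ℕ) (c : ℕ → Fin r) (S : Finset (Polynomial ℕ)) :
    ∃ m b : ℕ, 1 < m ∧ 1 < b ∧ ∀ P ∈ S, ∀ Q ∈ S, ∃ a : ℕ, 1 < a ∧ (∃ x, 0 < x ∧ a = m ^ x) ∧
      c (a ^ (b ^ (P.eval b))) = c b ∧ c (a ^ (b ^ (Q.eval b))) = c b := by
  obtain ⟨m, b, hm, hb, h⟩ := Pool.Agent.PPR.main r c S
  refine ⟨m, b, hm, hb, fun P hP Q hQ => ?_⟩
  obtain ⟨x, hx, h1, h2⟩ := h P hP Q hQ
  exact ⟨m ^ x, Nat.one_lt_pow hx.ne' hm, ⟨x, hx, rfl⟩, h1, h2⟩

end Pool.Agent.Results.MP_36bb18_co.PolynomialPairs
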