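import Pool.Agent.TC3.Dsty

namespace Pool.Agent.Results.MP_36bb18_co.ThreeColours

open Pool.Agent.TC3

/-- (1) If the powers `n ^ j` with `n > 1`, `j ≥ k` receive at most three colours, then there are
`a, b > 1`, both of this form, for which `a`, `b`, `a^b`, `a^(b^b)` all have the same colour
(`k = 0` or `k = 1` and three colours: the full pattern for every colouring with three colours).
(2) More generally the same for arbitrarily many colours, if all of them but at most two (the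
elements of `E`) are recurrent: a colour is recurrent if for every finite colouring `χ` of the
exponents there are `x` and a power `b > 1` (exponent at least `k`) of this colour such that `x`,
`x * b`, `x * b ^ b` have the same colour under `χ` (one of the colours always is recurrent). -/
theorem result :
    (∀ (k r : ℕ) (c : ℕ → Fin r) (T : Finset (Fin r)), T.card ≤ 3 →
      (∀ n j : ℕ, 1 < n → k ≤ j → c (n ^ j) ∈ T) →
      ∃ a b : ℕ, 1 < a ∧ 1 < b ∧ (∃ n j, k ≤ j ∧ a = n ^ j) ∧ (∃ n j, k ≤ j ∧ b = n ^ j) ∧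
        c b = c a ∧ c (a ^ b) = c a ∧ c (a ^ (b ^ b)) = c a) ∧
    (∀ (k r : ℕ) (c : ℕ → Fin r) (E : Finset (Fin r)), E.card ≤ 2 →
      (∀ n j : ℕ, 1 < n → k ≤ j → c (n ^ j) ∉ E → ∀ (s : ℕ) (χ : ℕ → Fin s),
        ∃ x b : ℕ, 0 < x ∧ 1 < b ∧ (∃ n' j', k ≤ j' ∧ b = n' ^ j') ∧ c b = c (n ^ j) ∧
          χ (x * b) = χ x ∧ χ (x * b ^ b) = χ x) →
      ∃ a b : ℕ, 1 < a ∧ 1 < b ∧ (∃ n j, k ≤ j ∧ a = n ^ j) ∧ (∃ n j, k ≤ j ∧ b = n ^ j) ∧
        c b = c a ∧ c (a ^ b) = c a ∧ c (a ^ (b ^ b)) = c a) := by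
  refine ⟨fun k r c T hT hc => ?_, fun k r c E hE hc => ?_⟩
  · rcases Nat.eq_zero_or_pos k with rfl | hk
    · obtain ⟨a, b, ha, hb, ⟨n, j, _, hn⟩, ⟨n', j', _, hn'⟩, h⟩ :=
        main 1 r one_pos c T hT (fun n j hn _ => hc n j hn (Nat.zero_le j))
      exact ⟨a, b, ha, hb, ⟨n, j, Nat.zero_le j, hn⟩, ⟨n', j', Nat.zero_le j', hn'⟩, h⟩
    · exact main k r hk c T hT hc
  · rcases Nat.eq_zero_or_pos k with rfl | hk
    · obtain ⟨a, b, ha, hb, ⟨n, j, _, hn⟩, ⟨n', j', _, hn'⟩, h⟩ :=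
        main_gen 1 r one_pos c E hE (fun n j hn _ hcE s χ => by
          obtain ⟨x, b, hx, hb, _, hcb, h1, h2⟩ := hc n j hn (Nat.zero_le j) hcE s χ
          exact ⟨x, b, hx, hb, ⟨⟨b, 1, le_rfl, (pow_one b).symm⟩, hcb⟩, h1, h2⟩)
      exact ⟨a, b, ha, hb, ⟨n, j, Nat.zero_le j, hn⟩, ⟨n', j', Nat.zero_le j', hn'⟩, h⟩
    · exact main_gen k r hk c E hE (fun n j hn hj hcE s χ => by
        obtain ⟨x, b, hx, hb, hbP, hcb, h1, h2⟩ := hc n j hn hj hcE s χ
        exact ⟨x, b, hx, hb, ⟨hbP, hcb⟩, h1, h2⟩)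

end Pool.Agent.Results.MP_36bb18_co.ThreeColours
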