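import Pool.Agent.Helper60.Triple

namespace Pool.Agent.Results.MP_36bb18_co.TripleAbb

/-- Let `B` be a multiplicatively thick set of positive integers (for every `n` it contains
`m, 2m, ..., nm` for some `m ≥ 1`). For every finite colouring `c` of the natural numbers and
every base `r > 1` there are a power `a > 1` of `r` and `b ∈ B` with `b > 1` such that
`a`, `a^b` and `a^(b^b)` all receive the same colour. -/
theorem result (k : ℕ) (c : ℕ → Fin k) (r : ℕ) (hr : 1 < r) (B : Set ℕ)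
    (hB : ∀ n : ℕ, ∃ m : ℕ, 0 < m ∧ ∀ j, 0 < j → j ≤ n → m * j ∈ B) :
    ∃ a b : ℕ, 1 < a ∧ 1 < b ∧ (∃ m, 0 < m ∧ a = r ^ m) ∧ b ∈ B ∧
      c (a ^ b) = c a ∧ c (a ^ (b ^ b)) = c a :=
  H60.triple_exp c r hr B hB

end Pool.Agent.Results.MP_36bb18_co.TripleAbb
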